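import Pool.Agent.Helper43_HAM.Stmts2
import Pool.Agent.Helper32_Poly.Comp

/-!
# HAM, module BO2: Boolean combinations of two polynomial-time predicates

The input is copied, the first machine is run on the first copy, the second machine on the second
copy, then the two answers are combined.
-/

set_option autoImplicit false

namespace Pool.Agent.HAM.H63

open Turing Function Computability StateTransition
open Pool.Agent.Helper32_Poly

set_option backward.isDefEq.respectTransparency false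

section Two

variable (tm₁ tm₂ : FinTM2)

/-- stacks of the combination -/
abbrev BK : Type := Option (tm₁.K ⊕ tm₂.K)

instance : DecidableEq (BK tm₁ tm₂) :=
  letI := tm₁.kDecidableEq
  letI := tm₂.kDecidableEq
  inferInstanceAs (DecidableEq (Option (tm₁.K ⊕ tm₂.K)))

instance : Fintype (BK tm₁ tm₂) :=
  @instFintypeOption _ (@instFintypeSum _ _ tm₁.kFin tm₂.kFin)

/-- alphabets -/
abbrev BG : BK tm₁ tm₂ → Type
  | none => tm₁.Γ tm₁.k₀
  | some (.inl k) => tm₁.Γ k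
  | some (.inr k) => tm₂.Γ k

/-- labels -/
abbrev BL : Type := (tm₁.Λ ⊕ tm₂.Λ) ⊕ Fin 4

/-- memory -/
abbrev BS : Type := (tm₁.σ × tm₂.σ) × (Option (tm₁.Γ tm₁.k₀) × (Bool × Bool))

/-- stack contents -/
def bmix (S₁ : ∀ k, List (tm₁.Γ k)) (S₂ : ∀ k, List (tm₂.Γ k)) (T : List (tm₁.Γ tm₁.k₀)) :
    ∀ k, List (BG tm₁ tm₂ k)
  | none => T
  | some (.inl k) => S₁ k
  | some (.inr k) => S₂ k

theorem update_bmix_none (S₁ S₂ T l) :
    update (bmix tm₁ tm₂ S₁ S₂ T) none l = bmix tm₁ tm₂ S₁ S₂ l := by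
  funext k
  match k with
  | none => exact Function.update_self _ _ _
  | some (.inl k) => exact Function.update_of_ne (by simp) _ _
  | some (.inr k) => exact Function.update_of_ne (by simp) _ _

theorem update_bmix_inl (S₁ S₂ T) (k : tm₁.K) (l) :
    update (bmix tm₁ tm₂ S₁ S₂ T) (some (.inl k)) l =
      bmix tm₁ tm₂ (@update tm₁.K _ tm₁.kDecidableEq S₁ k l) S₂ T := by
  let _ := tm₁.kDecidableEq
  funext k'
  match k' with
  | none => exact Function.update_of_ne (by simp) _ _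
  | some (.inl k') =>
    by_cases h : k' = k
    · subst h
      exact (Function.update_self _ _ _).trans (Function.update_self k' l S₁).symm
    · have h1 := Function.update_of_ne (a := (some (.inl k') : BK tm₁ tm₂))
        (a' := some (.inl k)) (by simp [h]) l (bmix tm₁ tm₂ S₁ S₂ T)
      have h2 := Function.update_of_ne h l S₁
      exact h1.trans h2.symm
  | some (.inr k') => exact Function.update_of_ne (by simp) _ _

theorem update_bmix_inr (S₁ S₂ T) (k : tm₂.K) (l) :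
    update (bmix tm₁ tm₂ S₁ S₂ T) (some (.inr k)) l =
      bmix tm₁ tm₂ S₁ (@update tm₂.K _ tm₂.kDecidableEq S₂ k l) T := by
  let _ := tm₂.kDecidableEq
  funext k'
  match k' with
  | none => exact Function.update_of_ne (by simp) _ _
  | some (.inl k') => exact Function.update_of_ne (by simp) _ _
  | some (.inr k') =>
    by_cases h : k' = k
    · subst h
      exact (Function.update_self _ _ _).trans (Function.update_self k' l S₂).symm
    · have h1 := Function.update_of_ne (a := (some (.inr k') : BK tm₁ tm₂))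
        (a' := some (.inr k)) (by simp [h]) l (bmix tm₁ tm₂ S₁ S₂ T)
      have h2 := Function.update_of_ne h l S₂
      exact h1.trans h2.symm

/-- code of the first machine -/
def bl₁ : TM2.Stmt tm₁.Γ tm₁.Λ tm₁.σ → TM2.Stmt (BG tm₁ tm₂) (BL tm₁ tm₂) (BS tm₁ tm₂)
  | .push k f q => .push (some (.inl k)) (fun v => f v.1.1) (bl₁ q)
  | .peek k f q => .peek (some (.inl k)) (fun v o => ((f v.1.1 o, v.1.2), v.2)) (bl₁ q)
  | .pop k f q => .pop (some (.inl k)) (fun v o => ((f v.1.1 o, v.1.2), v.2)) (bl₁ q)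
  | .load f q => .load (fun v => ((f v.1.1, v.1.2), v.2)) (bl₁ q)
  | .branch c q₁ q₂ => .branch (fun v => c v.1.1) (bl₁ q₁) (bl₁ q₂)
  | .goto f => .goto (fun v => .inl (.inl (f v.1.1)))
  | .halt => .goto (fun _ => .inr 2)

/-- code of the second machine -/
def bl₂ : TM2.Stmt tm₂.Γ tm₂.Λ tm₂.σ → TM2.Stmt (BG tm₁ tm₂) (BL tm₁ tm₂) (BS tm₁ tm₂)
  | .push k f q => .push (some (.inr k)) (fun v => f v.1.2) (bl₂ q)
  | .peek k f q => .peek (some (.inr k)) (fun v o => ((v.1.1, f v.1.2 o), v.2)) (bl₂ q)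
  | .pop k f q => .pop (some (.inr k)) (fun v o => ((v.1.1, f v.1.2 o), v.2)) (bl₂ q)
  | .load f q => .load (fun v => ((v.1.1, f v.1.2), v.2)) (bl₂ q)
  | .branch c q₁ q₂ => .branch (fun v => c v.1.2) (bl₂ q₁) (bl₂ q₂)
  | .goto f => .goto (fun v => .inl (.inr (f v.1.2)))
  | .halt => .goto (fun _ => .inr 3)

/-- label embedding for the first machine -/
def bla₁ : Option tm₁.Λ → BL tm₁ tm₂
  | some l => .inl (.inl l)
  | none => .inr 2

/-- label embedding for the second machine -/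
def bla₂ : Option tm₂.Λ → BL tm₁ tm₂
  | some l => .inl (.inr l)
  | none => .inr 3

/-- configurations of the first machine -/
def bem₁ (w : tm₂.σ) (o : Option (tm₁.Γ tm₁.k₀) × (Bool × Bool)) (S₂ : ∀ k, List (tm₂.Γ k))
    (T : List (tm₁.Γ tm₁.k₀)) (c : TM2.Cfg tm₁.Γ tm₁.Λ tm₁.σ) :
    TM2.Cfg (BG tm₁ tm₂) (BL tm₁ tm₂) (BS tm₁ tm₂) :=
  ⟨some (bla₁ tm₁ tm₂ c.l), ((c.var, w), o), bmix tm₁ tm₂ c.stk S₂ T⟩

/-- configurations of the second machine -/
def bem₂ (w : tm₁.σ) (o : Option (tm₁.Γ tm₁.k₀) × (Bool × Bool)) (S₁ : ∀ k, List (tm₁.Γ k))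
    (T : List (tm₁.Γ tm₁.k₀)) (c : TM2.Cfg tm₂.Γ tm₂.Λ tm₂.σ) :
    TM2.Cfg (BG tm₁ tm₂) (BL tm₁ tm₂) (BS tm₁ tm₂) :=
  ⟨some (bla₂ tm₁ tm₂ c.l), ((w, c.var), o), bmix tm₁ tm₂ S₁ c.stk T⟩

theorem stepAux_bl₁ (w : tm₂.σ) (o : Option (tm₁.Γ tm₁.k₀) × (Bool × Bool))
    (S₂ : ∀ k, List (tm₂.Γ k)) (T : List (tm₁.Γ tm₁.k₀)) :
    ∀ (q : TM2.Stmt tm₁.Γ tm₁.Λ tm₁.σ) (v : tm₁.σ) (S : ∀ k, List (tm₁.Γ k)),
    TM2.stepAux (bl₁ tm₁ tm₂ q) ((v, w), o) (bmix tm₁ tm₂ S S₂ T) =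
      bem₁ tm₁ tm₂ w o S₂ T (@TM2.stepAux _ _ _ _ tm₁.kDecidableEq q v S)
  | .push k f q, v, S => by
    simp only [bl₁, TM2.stepAux]
    rw [update_bmix_inl]
    exact stepAux_bl₁ w o S₂ T q v _
  | .peek k f q, v, S => by
    simp only [bl₁, TM2.stepAux]
    exact stepAux_bl₁ w o S₂ T q _ _
  | .pop k f q, v, S => by
    simp only [bl₁, TM2.stepAux]
    rw [update_bmix_inl]
    exact stepAux_bl₁ w o S₂ T q _ _
  | .load f q, v, S => by
    simp only [bl₁, TM2.stepAux]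
    exact stepAux_bl₁ w o S₂ T q _ _
  | .branch c q₁ q₂, v, S => by
    simp only [bl₁, TM2.stepAux]
    cases c v
    · simp only [cond_false]
      exact stepAux_bl₁ w o S₂ T q₂ _ _
    · simp only [cond_true]
      exact stepAux_bl₁ w o S₂ T q₁ _ _
  | .goto f, v, S => rfl
  | .halt, v, S => rfl

theorem stepAux_bl₂ (w : tm₁.σ) (o : Option (tm₁.Γ tm₁.k₀) × (Bool × Bool))
    (S₁ : ∀ k, List (tm₁.Γ k)) (T : List (tm₁.Γ tm₁.k₀)) :
    ∀ (q : TM2.Stmt tm₂.Γ tm₂.Λ tm₂.σ) (v : tm₂.σ) (S : ∀ k, List (tm₂.Γ k)),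
    TM2.stepAux (bl₂ tm₁ tm₂ q) ((w, v), o) (bmix tm₁ tm₂ S₁ S T) =
      bem₂ tm₁ tm₂ w o S₁ T (@TM2.stepAux _ _ _ _ tm₂.kDecidableEq q v S)
  | .push k f q, v, S => by
    simp only [bl₂, TM2.stepAux]
    rw [update_bmix_inr]
    exact stepAux_bl₂ w o S₁ T q v _
  | .peek k f q, v, S => by
    simp only [bl₂, TM2.stepAux]
    exact stepAux_bl₂ w o S₁ T q _ _
  | .pop k f q, v, S => by
    simp only [bl₂, TM2.stepAux]
    rw [update_bmix_inr]
    exact stepAux_bl₂ w o S₁ T q _ _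
  | .load f q, v, S => by
    simp only [bl₂, TM2.stepAux]
    exact stepAux_bl₂ w o S₁ T q _ _
  | .branch c q₁ q₂, v, S => by
    simp only [bl₂, TM2.stepAux]
    cases c v
    · simp only [cond_false]
      exact stepAux_bl₂ w o S₁ T q₂ _ _
    · simp only [cond_true]
      exact stepAux_bl₂ w o S₁ T q₁ _ _
  | .goto f, v, S => rfl
  | .halt, v, S => rfl

variable (tr : tm₁.Γ tm₁.k₀ → tm₂.Γ tm₂.k₀) (d₁ : tm₁.Γ tm₁.k₁ → Bool)
  (d₂ : tm₂.Γ tm₂.k₁ → Bool) (res : Bool → Bool → tm₂.Γ tm₂.k₁)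

/-- the program -/
noncomputable def BM : BL tm₁ tm₂ → TM2.Stmt (BG tm₁ tm₂) (BL tm₁ tm₂) (BS tm₁ tm₂)
  | .inl (.inl l) => bl₁ tm₁ tm₂ (tm₁.m l)
  | .inl (.inr l) => bl₂ tm₁ tm₂ (tm₂.m l)
  | .inr 0 => .pop (some (.inl tm₁.k₀)) (fun v o => (v.1, (o, v.2.2)))
      (.branch (fun v => v.2.1.isSome)
        (pushOpt none (fun v => v.2.1) (.goto (fun _ => .inr 0)))
        (.goto (fun _ => .inr 1)))
  | .inr 1 => .pop none (fun v o => (v.1, (o, v.2.2)))
      (.branch (fun v => v.2.1.isSome)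
        (pushOpt (some (.inl tm₁.k₀)) (fun v => v.2.1)
          (pushOpt (some (.inr tm₂.k₀)) (fun v => v.2.1.map tr) (.goto (fun _ => .inr 1))))
        (.goto (fun _ => .inl (.inl tm₁.main))))
  | .inr 2 => .goto (fun _ => .inl (.inr tm₂.main))
  | .inr 3 => .pop (some (.inl tm₁.k₁)) (fun v o => (v.1, (v.2.1, ((o.map d₁).getD false, v.2.2.2))))
      (.pop (some (.inr tm₂.k₁)) (fun v o => (v.1, (v.2.1, (v.2.2.1, (o.map d₂).getD false))))
        (.push (some (.inr tm₂.k₁)) (fun v => res v.2.2.1 v.2.2.2)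
          (.load (fun _ => ((tm₁.initialState, tm₂.initialState), (none, (false, false)))) .halt)))

/-- the machine -/
noncomputable def boMachine : FinTM2 where
  K := BK tm₁ tm₂
  kFin := inferInstance
  k₀ := some (.inl tm₁.k₀)
  k₁ := some (.inr tm₂.k₁)
  Γ := BG tm₁ tm₂
  Λ := BL tm₁ tm₂
  main := .inr 0
  ΛFin := @instFintypeSum _ _ (@instFintypeSum _ _ tm₁.ΛFin tm₂.ΛFin) inferInstance
  σ := BS tm₁ tm₂
  initialState := ((tm₁.initialState, tm₂.initialState), (none, (false, false)))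
  σFin := @instFintypeProd _ _ (@instFintypeProd _ _ tm₁.σFin tm₂.σFin)
    (@instFintypeProd _ _ (@instFintypeOption _ tm₁.Γk₀Fin) inferInstance)
  Γk₀Fin := tm₁.Γk₀Fin
  m := BM tm₁ tm₂ tr d₁ d₂ res

theorem steps_bem₁ (w : tm₂.σ) (o : Option (tm₁.Γ tm₁.k₀) × (Bool × Bool))
    (S₂ : ∀ k, List (tm₂.Γ k)) (T : List (tm₁.Γ tm₁.k₀)) :
    ∀ (n : ℕ) (a b : TM2.Cfg tm₁.Γ tm₁.Λ tm₁.σ),
    (_root_.flip bind tm₁.step)^[n] (some a) = some b →
    Steps (BM tm₁ tm₂ tr d₁ d₂ res) n (bem₁ tm₁ tm₂ w o S₂ T a) (bem₁ tm₁ tm₂ w o S₂ T b)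
  | 0, a, b, h => by
    have : some a = some b := h
    cases this
    exact Steps.refl _ _
  | n + 1, a, b, h => by
    rw [Function.iterate_succ_apply] at h
    have h1 : (_root_.flip bind tm₁.step) (some a) = tm₁.step a := rfl
    rw [h1] at h
    rcases h2 : tm₁.step a with _ | c
    · rw [h2] at h
      exfalso
      rw [iter_none] at h
      cases h
    · rw [h2] at h
      have h3 := steps_bem₁ w o S₂ T n c b h
      rw [Nat.add_comm]
      refine Steps.trans (Steps.one ?_) h3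
      obtain ⟨l, v, S⟩ := a
      cases l with
      | none => cases h2
      | some l =>
        have h4 : c = @TM2.stepAux _ _ _ _ tm₁.kDecidableEq (tm₁.m l) v S := by
          exact (Option.some.inj h2).symm
        rw [h4, ← stepAux_bl₁]
        rfl

theorem steps_bem₂ (w : tm₁.σ) (o : Option (tm₁.Γ tm₁.k₀) × (Bool × Bool))
    (S₁ : ∀ k, List (tm₁.Γ k)) (T : List (tm₁.Γ tm₁.k₀)) :
    ∀ (n : ℕ) (a b : TM2.Cfg tm₂.Γ tm₂.Λ tm₂.σ),
    (_root_.flip bind tm₂.step)^[n] (some a) = some b →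
    Steps (BM tm₁ tm₂ tr d₁ d₂ res) n (bem₂ tm₁ tm₂ w o S₁ T a) (bem₂ tm₁ tm₂ w o S₁ T b)
  | 0, a, b, h => by
    have : some a = some b := h
    cases this
    exact Steps.refl _ _
  | n + 1, a, b, h => by
    rw [Function.iterate_succ_apply] at h
    have h1 : (_root_.flip bind tm₂.step) (some a) = tm₂.step a := rfl
    rw [h1] at h
    rcases h2 : tm₂.step a with _ | c
    · rw [h2] at h
      exfalso
      rw [iter_none] at h
      cases h
    · rw [h2] at h
      have h3 := steps_bem₂ w o S₁ T n c b h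
      rw [Nat.add_comm]
      refine Steps.trans (Steps.one ?_) h3
      obtain ⟨l, v, S⟩ := a
      cases l with
      | none => cases h2
      | some l =>
        have h4 : c = @TM2.stepAux _ _ _ _ tm₂.kDecidableEq (tm₂.m l) v S := by
          exact (Option.some.inj h2).symm
        rw [h4, ← stepAux_bl₂]
        rfl

theorem bcopy₁ (v : tm₁.σ × tm₂.σ) (bb : Bool × Bool) : ∀ (y : List (tm₁.Γ tm₁.k₀)) (S₂) (T)
    (o : Option (tm₁.Γ tm₁.k₀)) (S₁ : ∀ k, List (tm₁.Γ k)), S₁ tm₁.k₀ = y →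
    Steps (BM tm₁ tm₂ tr d₁ d₂ res) (y.length + 1)
      ⟨some (.inr 0), (v, (o, bb)), bmix tm₁ tm₂ S₁ S₂ T⟩
      ⟨some (.inr 1), (v, (none, bb)), bmix tm₁ tm₂
        (@update tm₁.K (fun k => List (tm₁.Γ k)) tm₁.kDecidableEq S₁ tm₁.k₀ []) S₂
        (y.reverse ++ T)⟩
  | [], S₂, T, o, S₁, h => by
    apply Steps.one
    have e : bmix tm₁ tm₂ S₁ S₂ T (some (.inl tm₁.k₀)) = [] := h
    simp only [TM2.step, BM, TM2.stepAux, e, List.head?_nil,
      Option.isSome_none, cond_false, List.tail_nil, update_bmix_inl,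
      List.reverse_nil, List.nil_append]
  | a :: y, S₂, T, o, S₁, h => by
    have ih := bcopy₁ v bb y S₂ (a :: T) (some a)
      (@update tm₁.K (fun k => List (tm₁.Γ k)) tm₁.kDecidableEq S₁ tm₁.k₀ y) (by simp)
    have e : bmix tm₁ tm₂ S₁ S₂ T (some (.inl tm₁.k₀)) = a :: y := h
    have h1 : Steps (BM tm₁ tm₂ tr d₁ d₂ res) 1
        ⟨some (.inr 0), (v, (o, bb)), bmix tm₁ tm₂ S₁ S₂ T⟩
        ⟨some (.inr 0), (v, (some a, bb)), bmix tm₁ tm₂
        (@update tm₁.K (fun k => List (tm₁.Γ k)) tm₁.kDecidableEq S₁ tm₁.k₀ y) S₂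
          (a :: T)⟩ := by
      apply Steps.one
      simp only [TM2.step, BM, TM2.stepAux, e, List.head?_cons,
        Option.isSome_some, cond_true, List.tail_cons, update_bmix_inl]
      have hp := stepAux_pushOpt (K := BK tm₁ tm₂) (Γ := BG tm₁ tm₂) (Λ := BL tm₁ tm₂)
        (σ := BS tm₁ tm₂) none (fun v => v.2.1) (.goto (fun _ => .inr 0)) (v, (some a, bb))
        (bmix tm₁ tm₂ (@update tm₁.K (fun k => List (tm₁.Γ k)) tm₁.kDecidableEq S₁ tm₁.k₀ y)
          S₂ T) a rfl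
      refine (congrArg some hp).trans ?_
      rw [update_bmix_none]
      rfl
    have h2 := Steps.trans h1 ih
    have e2 : 1 + (y.length + 1) = (a :: y).length + 1 := by simp [Nat.add_comm]
    rw [e2] at h2
    simpa using h2

theorem bcopy₂ (v : tm₁.σ × tm₂.σ) (bb : Bool × Bool) : ∀ (T : List (tm₁.Γ tm₁.k₀))
    (o : Option (tm₁.Γ tm₁.k₀)) (S₁ : ∀ k, List (tm₁.Γ k)) (S₂ : ∀ k, List (tm₂.Γ k)),
    Steps (BM tm₁ tm₂ tr d₁ d₂ res) (T.length + 1)
      ⟨some (.inr 1), (v, (o, bb)), bmix tm₁ tm₂ S₁ S₂ T⟩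
      ⟨some (.inl (.inl tm₁.main)), (v, (none, bb)), bmix tm₁ tm₂
        (@update tm₁.K (fun k => List (tm₁.Γ k)) tm₁.kDecidableEq S₁ tm₁.k₀
          (T.reverse ++ S₁ tm₁.k₀))
        (@update tm₂.K (fun k => List (tm₂.Γ k)) tm₂.kDecidableEq S₂ tm₂.k₀
          ((T.map tr).reverse ++ S₂ tm₂.k₀)) []⟩
  | [], o, S₁, S₂ => by
    apply Steps.one
    have e : bmix tm₁ tm₂ S₁ S₂ [] none = [] := rfl
    simp [TM2.step, BM, TM2.stepAux, e, update_bmix_none]
  | a :: T, o, S₁, S₂ => by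
    have ih := bcopy₂ v bb T (some a)
      (@update tm₁.K (fun k => List (tm₁.Γ k)) tm₁.kDecidableEq S₁ tm₁.k₀ (a :: S₁ tm₁.k₀))
      (@update tm₂.K (fun k => List (tm₂.Γ k)) tm₂.kDecidableEq S₂ tm₂.k₀ (tr a :: S₂ tm₂.k₀))
    have e : bmix tm₁ tm₂ S₁ S₂ (a :: T) none = a :: T := rfl
    have h1 : Steps (BM tm₁ tm₂ tr d₁ d₂ res) 1
        ⟨some (.inr 1), (v, (o, bb)), bmix tm₁ tm₂ S₁ S₂ (a :: T)⟩
        ⟨some (.inr 1), (v, (some a, bb)), bmix tm₁ tm₂
        (@update tm₁.K (fun k => List (tm₁.Γ k)) tm₁.kDecidableEq S₁ tm₁.k₀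
          (a :: S₁ tm₁.k₀))
        (@update tm₂.K (fun k => List (tm₂.Γ k)) tm₂.kDecidableEq S₂ tm₂.k₀
          (tr a :: S₂ tm₂.k₀)) T⟩ := by
      apply Steps.one
      simp only [TM2.step, BM, TM2.stepAux, e, List.head?_cons,
        Option.isSome_some, cond_true, List.tail_cons, update_bmix_none]
      have hp := stepAux_pushOpt (K := BK tm₁ tm₂) (Γ := BG tm₁ tm₂) (Λ := BL tm₁ tm₂)
        (σ := BS tm₁ tm₂) (some (.inl tm₁.k₀)) (fun v => v.2.1)
        (pushOpt (some (.inr tm₂.k₀)) (fun v => v.2.1.map tr) (.goto (fun _ => .inr 1)))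
        (v, (some a, bb)) (bmix tm₁ tm₂ S₁ S₂ T) a rfl
      refine (congrArg some hp).trans ?_
      rw [update_bmix_inl]
      have hq := stepAux_pushOpt (K := BK tm₁ tm₂) (Γ := BG tm₁ tm₂) (Λ := BL tm₁ tm₂)
        (σ := BS tm₁ tm₂) (some (.inr tm₂.k₀)) (fun v => v.2.1.map tr)
        (.goto (fun _ => .inr 1)) (v, (some a, bb))
        (bmix tm₁ tm₂ (@update tm₁.K (fun k => List (tm₁.Γ k)) tm₁.kDecidableEq S₁ tm₁.k₀
          (a :: S₁ tm₁.k₀)) S₂ T) (tr a) rfl
      refine (congrArg some hq).trans ?_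
      rw [update_bmix_inr]
      rfl
    have h2 := Steps.trans h1 ih
    have e2 : 1 + (T.length + 1) = (a :: T).length + 1 := by simp [Nat.add_comm]
    rw [e2] at h2
    simpa using h2

theorem bfin (v : tm₁.σ × tm₂.σ) (w : Option (tm₁.Γ tm₁.k₀) × (Bool × Bool))
    (S₁ : ∀ k, List (tm₁.Γ k)) (S₂ : ∀ k, List (tm₂.Γ k)) (T : List (tm₁.Γ tm₁.k₀))
    (a : tm₁.Γ tm₁.k₁) (b : tm₂.Γ tm₂.k₁) (h₁ : S₁ tm₁.k₁ = [a]) (h₂ : S₂ tm₂.k₁ = [b]) :
    TM2.step (BM tm₁ tm₂ tr d₁ d₂ res) ⟨some (.inr 3), (v, w), bmix tm₁ tm₂ S₁ S₂ T⟩ =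
      some ⟨none, ((tm₁.initialState, tm₂.initialState), (none, (false, false))),
        bmix tm₁ tm₂ (@update tm₁.K (fun k => List (tm₁.Γ k)) tm₁.kDecidableEq S₁ tm₁.k₁ [])
          (@update tm₂.K (fun k => List (tm₂.Γ k)) tm₂.kDecidableEq S₂ tm₂.k₁
            [res (d₁ a) (d₂ b)]) T⟩ := by
  have e1 : bmix tm₁ tm₂ S₁ S₂ T (some (.inl tm₁.k₁)) = [a] := h₁
  have e2 : bmix tm₁ tm₂ (@update tm₁.K (fun k => List (tm₁.Γ k)) tm₁.kDecidableEq S₁ tm₁.k₁ [])
      S₂ T (some (.inr tm₂.k₁)) = [b] := h₂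
  have e3 : bmix tm₁ tm₂ (@update tm₁.K (fun k => List (tm₁.Γ k)) tm₁.kDecidableEq S₁ tm₁.k₁ [])
      (@update tm₂.K (fun k => List (tm₂.Γ k)) tm₂.kDecidableEq S₂ tm₂.k₁ []) T
      (some (.inr tm₂.k₁)) = [] :=
    @Function.update_self tm₂.K (fun k => List (tm₂.Γ k)) tm₂.kDecidableEq tm₂.k₁ [] S₂
  simp only [TM2.step, BM, TM2.stepAux, e1, List.head?_cons, List.tail_cons, update_bmix_inl,
    e2, update_bmix_inr, e3, Option.map_some, Option.getD_some, Function.update_idem]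

end Two

theorem bo2_aux {α Γ : Type} {ea : α → List Γ} {f g : α → Bool} (op : Bool → Bool → Bool)
    (h₁ : TM2ComputableInPolyTime ea encodeBool f)
    (h₂ : TM2ComputableInPolyTime ea encodeBool g) :
    Nonempty (TM2ComputableInPolyTime ea encodeBool (fun x => op (f x) (g x))) := by
  obtain ⟨⟨tm₁, i₁, o₁⟩, time₁, H₁⟩ := h₁
  obtain ⟨⟨tm₂, i₂, o₂⟩, time₂, H₂⟩ := h₂
  simp only at H₁ H₂
  let _ := tm₁.kDecidableEq
  let _ := tm₂.kDecidableEq
  let _ := tm₁.kFin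
  let _ := tm₂.kFin
  let _ := tm₁.ΛFin
  let tr : tm₁.Γ tm₁.k₀ → tm₂.Γ tm₂.k₀ := fun a => i₂.symm (i₁ a)
  let d₁ : tm₁.Γ tm₁.k₁ → Bool := fun a => o₁ a
  let d₂ : tm₂.Γ tm₂.k₁ → Bool := fun a => o₂ a
  let res : Bool → Bool → tm₂.Γ tm₂.k₁ := fun b c => o₂.symm (op b c)
  have key : ∀ a, ∃ n, n ≤ (time₁ + time₂ + 2 * Polynomial.X + 4).eval (ea a).length ∧
      (_root_.flip bind (boMachine tm₁ tm₂ tr d₁ d₂ res).step)^[n]
        (some (initList (boMachine tm₁ tm₂ tr d₁ d₂ res) ((ea a).map i₁.symm))) =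
        some (haltList (boMachine tm₁ tm₂ tr d₁ d₂ res)
          ((encodeBool (op (f a) (g a))).map o₂.symm)) := by
    intro a
    obtain ⟨⟨n₁, E₁⟩, L₁⟩ := H₁ a
    obtain ⟨⟨n₂, E₂⟩, L₂⟩ := H₂ a
    simp only at L₁ L₂
    set x := (ea a).map i₁.symm with hx
    have hx2 : (ea a).map i₂.symm = x.map tr := by
      simp [hx, tr, List.map_map, Function.comp_def]
    have E₁' : (_root_.flip bind tm₁.step)^[n₁] (some (initList tm₁ x)) =
        some (haltList tm₁ [o₁.symm (f a)]) := E₁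
    have E₂' : (_root_.flip bind tm₂.step)^[n₂] (some (initList tm₂ ((ea a).map i₂.symm))) =
        some (haltList tm₂ [o₂.symm (g a)]) := E₂
    rw [hx2] at E₂'
    have s1 := bcopy₁ tm₁ tm₂ tr d₁ d₂ res (tm₁.initialState, tm₂.initialState) (false, false) x
      (fun _ => []) [] none (update (fun _ => []) tm₁.k₀ x) (by simp)
    have s2 := bcopy₂ tm₁ tm₂ tr d₁ d₂ res (tm₁.initialState, tm₂.initialState) (false, false)
      (x.reverse ++ []) none (update (update (fun _ => []) tm₁.k₀ x) tm₁.k₀ []) (fun _ => [])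
    have s3 := steps_bem₁ tm₁ tm₂ tr d₁ d₂ res tm₂.initialState (none, (false, false))
      (update (fun _ => []) tm₂.k₀ (x.map tr)) [] n₁ _ _ E₁'
    have s5 := steps_bem₂ tm₁ tm₂ tr d₁ d₂ res tm₁.initialState (none, (false, false))
      (update (fun _ => []) tm₁.k₁ [o₁.symm (f a)]) [] n₂ _ _ E₂'
    have s4 : Steps (BM tm₁ tm₂ tr d₁ d₂ res) 1
        (bem₁ tm₁ tm₂ tm₂.initialState (none, (false, false))
          (update (fun _ => []) tm₂.k₀ (x.map tr)) [] (haltList tm₁ [o₁.symm (f a)]))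
        (bem₂ tm₁ tm₂ tm₁.initialState (none, (false, false))
          (update (fun _ => []) tm₁.k₁ [o₁.symm (f a)]) [] (initList tm₂ (x.map tr))) := by
      apply Steps.one
      rw [haltList_eq, initList_eq]
      rfl
    have s6 : Steps (BM tm₁ tm₂ tr d₁ d₂ res) 1
        (bem₂ tm₁ tm₂ tm₁.initialState (none, (false, false))
          (update (fun _ => []) tm₁.k₁ [o₁.symm (f a)]) [] (haltList tm₂ [o₂.symm (g a)]))
        (haltList (boMachine tm₁ tm₂ tr d₁ d₂ res)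
          ((encodeBool (op (f a) (g a))).map o₂.symm)) := by
      apply Steps.one
      rw [haltList_eq, haltList_eq]
      refine (bfin tm₁ tm₂ tr d₁ d₂ res (tm₁.initialState, tm₂.initialState)
        (none, (false, false)) (update (fun _ => []) tm₁.k₁ [o₁.symm (f a)])
        (update (fun _ => []) tm₂.k₁ [o₂.symm (g a)]) [] (o₁.symm (f a)) (o₂.symm (g a))
        (by simp) (by simp)).trans ?_
      have e0 : res (d₁ (o₁.symm (f a))) (d₂ (o₂.symm (g a))) = o₂.symm (op (f a) (g a)) := by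
        simp [res, d₁, d₂]
      rw [e0, Function.update_idem, Function.update_idem]
      have e1 : (update (fun _ => []) tm₁.k₁ [] : ∀ k, List (tm₁.Γ k)) = fun _ => [] := by
        funext k
        by_cases h : k = tm₁.k₁
        · subst h; simp
        · simp [h]
      rw [e1]
      have e : (bmix tm₁ tm₂ (fun _ => []) (update (fun _ => []) tm₂.k₁
          [o₂.symm (op (f a) (g a))]) []) =
          @update (BK tm₁ tm₂) (fun k => List (BG tm₁ tm₂ k)) _ (fun _ => [])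
            (some (Sum.inr tm₂.k₁)) [o₂.symm (op (f a) (g a))] := by
        rw [← update_bmix_inr]
        congr 1
        funext k
        match k with
        | none => rfl
        | some (.inl k) => rfl
        | some (.inr k) => rfl
      rw [e]
      rfl
    have c1 : initList (boMachine tm₁ tm₂ tr d₁ d₂ res) x =
        ⟨some (.inr 0), ((tm₁.initialState, tm₂.initialState), (none, (false, false))),
        bmix tm₁ tm₂ (update (fun _ => []) tm₁.k₀ x) (fun _ => []) []⟩ := by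
      rw [initList_eq]
      have e : (bmix tm₁ tm₂ (update (fun _ => []) tm₁.k₀ x) (fun _ => []) []) =
          @update (BK tm₁ tm₂) (fun k => List (BG tm₁ tm₂ k)) _ (fun _ => [])
            (some (Sum.inl tm₁.k₀)) x := by
        rw [← update_bmix_inl]
        congr 1
        funext k
        match k with
        | none => rfl
        | some (.inl k) => rfl
        | some (.inr k) => rfl
      rw [e]
      rfl
    have c2 : (⟨some (.inl (.inl tm₁.main)), ((tm₁.initialState, tm₂.initialState),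
        (none, (false, false))), bmix tm₁ tm₂
        (update (update (update (fun _ => []) tm₁.k₀ x) tm₁.k₀ []) tm₁.k₀
          ((x.reverse ++ []).reverse ++
            (update (update (fun _ => []) tm₁.k₀ x) tm₁.k₀ []) tm₁.k₀))
        (update (fun _ => []) tm₂.k₀ (((x.reverse ++ []).map tr).reverse ++ [])) []⟩ :
          TM2.Cfg (BG tm₁ tm₂) (BL tm₁ tm₂) (BS tm₁ tm₂)) =
        bem₁ tm₁ tm₂ tm₂.initialState (none, (false, false))
          (update (fun _ => []) tm₂.k₀ (x.map tr)) [] (initList tm₁ x) := by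
      rw [initList_eq]
      simp only [List.append_nil, List.reverse_reverse, Function.update_self,
        Function.update_idem, List.map_reverse]
      rfl
    rw [c1]
    rw [c2] at s2
    have s7 := Steps.trans (Steps.trans (Steps.trans (Steps.trans (Steps.trans s1 s2) s3) s4) s5) s6
    refine ⟨_, ?_, s7⟩
    have l1 : x.length = (ea a).length := by simp [hx]
    simp only [Polynomial.eval_add, Polynomial.eval_mul, Polynomial.eval_X,
      Polynomial.eval_ofNat, List.append_nil, List.length_reverse]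
    omega
  exact ⟨⟨⟨boMachine tm₁ tm₂ tr d₁ d₂ res, i₁, o₂⟩,
    time₁ + time₂ + 2 * Polynomial.X + 4,
    fun a => ⟨⟨(key a).choose, (key a).choose_spec.2⟩, (key a).choose_spec.1⟩⟩⟩

/-- module BO2 -/
theorem bo2 : Bo2Stmt := by
  rintro α Γ ea f g op ⟨h₁⟩ ⟨h₂⟩
  exact bo2_aux op h₁ h₂

end Pool.Agent.HAM.H63
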