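import Pool.Agent.Helper43_HAM.Stmts2
import Pool.Agent.Helper32_Poly.Morphism

/-!
# HAM, module DFA: finite automata run in polynomial time
-/

set_option autoImplicit false

namespace Pool.Agent.HAM.H63

open Turing Function Computability StateTransition
open Pool.Agent.Helper32_Poly

/-- the program of a finite automaton -/
def dfaProg {Γ S : Type} (δ : S → Γ → S) : Prog (G3 Γ Bool) (S × Option Γ) :=
  .forEach K3.a (fun v => v.2) (fun v o => (v.1, o))
    (.load (fun v => match v.2 with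
      | some a => (δ v.1 a, v.2)
      | none => v))

theorem dfa_run {Γ S : Type} (δ : S → Γ → S) (s₀ : S) (w : List Γ) :
    ∃ (t : ℕ) (v' : S × Option Γ) (S' : ∀ k, List (G3 Γ Bool k)), t ≤ w.length * 3 + 2 ∧
      v'.1 = w.foldl δ s₀ ∧ Prog.Run (dfaProg δ) (s₀, none) (S3 w [] []) v' S' t := by
  obtain ⟨v1, T1, t1, ht1, hr1, hI1, -⟩ := Prog.forEach_run (Γ := G3 Γ Bool) K3.a
    (fun (v : S × Option Γ) => v.2) (fun v o => (v.1, o)) (fun _ _ => rfl)
    (.load (fun v => match v.2 with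
      | some a => (δ v.1 a, v.2)
      | none => v))
    (fun l v _ => l.foldl δ v.1 = w.foldl δ s₀) 1
    (by
      intro a l v S hI hS
      refine ⟨_, _, 1, le_rfl, Prog.Run.load _ _ _, ?_, ?_⟩
      · simpa using hI
      · simp)
    w (s₀, none) (S3 w [] []) rfl rfl
  exact ⟨t1, (v1.1, none), T1, by omega, hI1, hr1⟩

/-- module DFA -/
theorem dfa : DfaStmt := by
  intro α Γ S _ _ ea δ s₀ acc
  refine ⟨Prog.decidable (K := K3) (Γ := G3 Γ Bool) ea _ (s₀, none) K3.a K3.c (dfaProg δ)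
    (Equiv.refl Γ) (Equiv.refl Bool) (fun v => acc v.1) (Polynomial.X * 3 + 2) ?_⟩
  intro a
  obtain ⟨t, v', S', ht, hv, hr⟩ := dfa_run δ s₀ (ea a)
  refine ⟨t, v', S', ?_, by rw [hv], ?_⟩
  · simpa using ht
  · rw [S3_zero_a]
    simpa using hr

end Pool.Agent.HAM.H63
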